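import Mathlib
import Pool.Agent.helper68.AM.SpecX

/-!
Project sl, module XB: bounded deficit at all nodes.
-/

set_option autoImplicit false

namespace AM

open Pool.Agent.helper72.Sq

/-- the deficit of a growing node is bounded by a uniform constant -/
lemma XB_gr {P : Tri} (h : Gr P) : |len P.1 + len P.2.1 - len P.2.2| ≤ 2 * Real.log 4 := by
  have hx := h.x2
  have hy := h.y2
  have hz := h.z2
  have h0 : 0 ≤ len P.1 + len P.2.1 - len P.2.2 := by
    have := Gr.len_z_le h
    linarith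
  rw [abs_of_nonneg h0]
  have h1 := len_le_two_log hx.le
  have h2 := len_le_two_log hy.le
  have h3 := two_log_le_len hz.le
  have h4 : Real.log (P.1 * P.2.1 / 4) ≤ Real.log (P.2.2 / 2) := by
    apply Real.log_le_log
    · have : 0 < P.1 * P.2.1 := by positivity
      linarith
    · linarith [h.zbig]
  rw [Real.log_div (by positivity) (by norm_num), Real.log_mul (by linarith) (by linarith)] at h4
  linarith

/-- descendants of a growing node are growing -/
lemma XB_desc_gr : ∀ (w : List Bool) (P : Tri), Gr P → Gr (desc w P) := by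
  intro w
  induction w with
  | nil => intro P h; exact h
  | cons b w ih =>
    intro P h
    cases b
    · exact ih _ h.R
    · exact ih _ h.L

/-- bounded deficit at all descendants -/
def XB_Bd (P : Tri) : Prop := ∃ C : ℝ, ∀ w : List Bool,
  |len (desc w P).1 + len (desc w P).2.1 - len (desc w P).2.2| ≤ C

lemma XB_Bd_gr {P : Tri} (h : Gr P) : XB_Bd P :=
  ⟨2 * Real.log 4, fun w => XB_gr (XB_desc_gr w P h)⟩

lemma XB_Bd_children {P : Tri} (hL : XB_Bd (Lm P)) (hR : XB_Bd (Rm P)) : XB_Bd P := by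
  obtain ⟨C1, h1⟩ := hL
  obtain ⟨C2, h2⟩ := hR
  refine ⟨max (max C1 C2) |len P.1 + len P.2.1 - len P.2.2|, ?_⟩
  intro w
  cases w with
  | nil => exact le_max_right _ _
  | cons b w =>
    cases b
    · exact (h2 w).trans ((le_max_right _ _).trans (le_max_left _ _))
    · exact (h1 w).trans ((le_max_left _ _).trans (le_max_left _ _))

lemma XB_aux (M0 ρ : ℝ) (hρ0 : 0 < ρ)
    (hρ : ∀ P : Tri, Adm P → P.1 ≤ M0 → P.2.1 ≤ M0 → 2 ≤ ρ * P.1 ∧ 2 ≤ ρ * P.2.1) :
    ∀ n : ℕ, ∀ P : Tri, Adm P → P.1 ≤ M0 → P.2.1 ≤ M0 → P.1 * P.2.1 * ρ ^ n ≤ 4 →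
      XB_Bd P := by
  intro n
  induction n with
  | zero =>
    intro P hP _ _ h4
    exfalso
    have := hP.x2
    have := hP.y2
    nlinarith
  | succ n ih =>
    intro P hP hx hy h4
    have hx2 := hP.x2
    have hy2 := hP.y2
    have hz2 := hP.z2
    have hGood : ∀ Q : Tri, Adm Q → Q.1 * Q.2.1 ≤ 2 * Q.2.2 → XB_Bd Q := by
      intro Q hQ hzQ
      exact XB_Bd_gr ⟨hQ.x2, hQ.y2, hQ.kpos, hzQ⟩
    by_cases hz : P.1 * P.2.1 ≤ 2 * P.2.2
    · exact hGood P hP hz
    · push Not at hz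
      have hρP := hρ P hP hx hy
      apply XB_Bd_children
      · by_cases hzL : (Lm P).1 * (Lm P).2.1 ≤ 2 * (Lm P).2.2
        · exact hGood _ hP.L hzL
        · push Not at hzL
          simp only [Lm] at hzL
          have hxz : P.1 * P.2.2 < 2 * P.2.1 := by linarith
          refine ih (Lm P) hP.L hx ?_ ?_
          · simp only [Lm]; nlinarith
          · simp only [Lm]
            refine le_trans ?_ h4
            have : P.1 * P.2.2 ≤ P.1 * P.2.1 * ρ := by nlinarith
            calc P.1 * P.2.2 * ρ ^ n ≤ (P.1 * P.2.1 * ρ) * ρ ^ n := by gcongr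
              _ = _ := by rw [pow_succ]; ring
      · by_cases hzR : (Rm P).1 * (Rm P).2.1 ≤ 2 * (Rm P).2.2
        · exact hGood _ hP.R hzR
        · push Not at hzR
          simp only [Rm] at hzR
          have hyz : P.2.2 * P.2.1 < 2 * P.1 := by linarith
          refine ih (Rm P) hP.R ?_ hy ?_
          · simp only [Rm]; nlinarith
          · simp only [Rm]
            refine le_trans ?_ h4
            have : P.2.2 * P.2.1 ≤ P.1 * P.2.1 * ρ := by nlinarith
            calc P.2.2 * P.2.1 * ρ ^ n ≤ (P.1 * P.2.1 * ρ) * ρ ^ n := by gcongr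
              _ = _ := by rw [pow_succ]; ring

theorem XB : XB_stmt := by
  intro P hP
  change XB_Bd P
  set M0 := max P.1 P.2.1 with hM0
  have hM2 : 2 < M0 := hP.x2.trans_le (le_max_left _ _)
  set ε := 16 / (M0 ^ 2 - 4) with hε
  have hM4 : 0 < M0 ^ 2 - 4 := by nlinarith
  have hε0 : 0 < ε := by rw [hε]; positivity
  set τ := √(4 + ε) with hτ
  have hτ2 : 2 < τ := by
    rw [hτ, show (2 : ℝ) = √4 by
      rw [show (4 : ℝ) = 2 ^ 2 by norm_num, Real.sqrt_sq (by norm_num)]]
    exact Real.sqrt_lt_sqrt (by norm_num) (by linarith)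
  have hleg : ∀ Q : Tri, Adm Q → Q.1 ≤ M0 → Q.2.1 ≤ M0 → τ ≤ Q.1 ∧ τ ≤ Q.2.1 := by
    intro Q hQ hx hy
    have hd := hQ.disc
    have hx2 := hQ.x2
    have hy2 := hQ.y2
    have hx4 : 0 < Q.1 ^ 2 - 4 := by nlinarith
    have hy4 : 0 < Q.2.1 ^ 2 - 4 := by nlinarith
    have hxM : Q.1 ^ 2 - 4 ≤ M0 ^ 2 - 4 := by nlinarith
    have hyM : Q.2.1 ^ 2 - 4 ≤ M0 ^ 2 - 4 := by nlinarith
    constructor
    · apply Real.sqrt_le_iff.2
      refine ⟨by linarith, ?_⟩
      have : ε ≤ Q.1 ^ 2 - 4 := by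
        rw [hε, div_le_iff₀ hM4]
        nlinarith
      linarith
    · apply Real.sqrt_le_iff.2
      refine ⟨by linarith, ?_⟩
      have : ε ≤ Q.2.1 ^ 2 - 4 := by
        rw [hε, div_le_iff₀ hM4]
        nlinarith
      linarith
  have hρ1 : 2 / τ < 1 := by rw [div_lt_one (by linarith)]; exact hτ2
  have hρ0 : 0 < 2 / τ := by positivity
  have hx2 := hP.x2
  have hy2 := hP.y2
  obtain ⟨n, hn⟩ := exists_pow_lt_of_lt_one (show 0 < 4 / (P.1 * P.2.1) by positivity) hρ1
  refine XB_aux M0 (2 / τ) hρ0 ?_ n P hP (le_max_left _ _) (le_max_right _ _) ?_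
  · intro Q hQ hx hy
    obtain ⟨h1, h2⟩ := hleg Q hQ hx hy
    constructor
    · rw [div_mul_eq_mul_div, le_div_iff₀ (by linarith)]; linarith
    · rw [div_mul_eq_mul_div, le_div_iff₀ (by linarith)]; linarith
  · have hpos : 0 < P.1 * P.2.1 := by positivity
    rw [lt_div_iff₀ hpos] at hn
    linarith

end AM
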