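import Mathlib
import Pool.Agent.helper68.AM.Spec
import Pool.Agent.helper68.AM.Tree

/-!
Project sl: (MP_d52931_gt), module MN: monotonicity of the functionals along the tree.
-/

set_option autoImplicit false

namespace AM

open Pool.Agent.helper72.Sq Finset

/-- the node inequalities -/
lemma MN_node (hGE : GE_stmt) {x : Nd} (h : Gr x.t) (d1 d2 : ℤ) (ha : x.al d1 d2 ≤ 0)
    (hb : 0 ≤ x.be d1 d2) : x.I d1 d2 ≤ x.La d1 d2 ∧ x.La d1 d2 ≤ x.S d1 d2 := by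
  obtain ⟨_, _, _, e1, _, e2, _⟩ := hGE x.t h
  have ha' : (x.al d1 d2 : ℝ) ≤ 0 := by exact_mod_cast ha
  have hb' : (0 : ℝ) ≤ x.be d1 d2 := by exact_mod_cast hb
  unfold Nd.I Nd.La Nd.S Nd.l1 Nd.l2
  constructor
  · have := mul_le_mul_of_nonneg_left e1 hb'
    linarith
  · have := mul_le_mul_of_nonpos_left e2 ha'
    linarith

lemma MN_I_L (hGE : GE_stmt) {x : Nd} (h : Gr x.t) (d1 d2 : ℤ) :
    x.L.I d1 d2 = x.I d1 d2 := by
  obtain ⟨e1, _⟩ := hGE x.t h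
  unfold Nd.I
  rw [al_L, be_L]
  have e3 : x.L.l1 = x.l1 := rfl
  have e4 : x.L.t = Lm x.t := rfl
  rw [e3, e4, e1]
  push_cast
  unfold Nd.l1
  ring

lemma MN_S_R (hGE : GE_stmt) {x : Nd} (h : Gr x.t) (d1 d2 : ℤ) :
    x.R.S d1 d2 = x.S d1 d2 := by
  obtain ⟨_, e1, _⟩ := hGE x.t h
  unfold Nd.S
  rw [al_R, be_R]
  have e3 : x.R.l2 = x.l2 := rfl
  have e4 : x.R.t = Rm x.t := rfl
  rw [e3, e4, e1]
  push_cast
  unfold Nd.l2
  ring

/-- the gap between the two children -/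
lemma MN_gap (hGE : GE_stmt) {x : Nd} (h : Gr x.t) (d1 d2 : ℤ) (ha : x.al d1 d2 ≤ 0)
    (hb : 0 ≤ x.be d1 d2) :
    ((x.be d1 d2 : ℝ) - x.al d1 d2) * Real.exp (-x.lz) ≤ x.R.I d1 d2 - x.L.S d1 d2 := by
  obtain ⟨_, _, _, _, _, _, e⟩ := hGE x.t h
  have ha' : (x.al d1 d2 : ℝ) ≤ 0 := by exact_mod_cast ha
  have hb' : (0 : ℝ) ≤ x.be d1 d2 := by exact_mod_cast hb
  unfold Nd.S Nd.I
  rw [al_L, be_L, al_R, be_R]
  have e3 : x.L.l2 = x.lz := rfl
  have e4 : x.R.l1 = x.lz := rfl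
  have e5 : x.L.t = Lm x.t := rfl
  have e6 : x.R.t = Rm x.t := rfl
  rw [e3, e4, e5, e6]
  push_cast
  have e7 : Real.exp (-x.lz) ≤ E2 (Lm x.t) + E1 (Rm x.t) - x.lz := e
  have := mul_le_mul_of_nonneg_left e7 (by linarith : (0 : ℝ) ≤ (x.be d1 d2 : ℝ) - x.al d1 d2)
  nlinarith

lemma MN_gap' (hGE : GE_stmt) {x : Nd} (h : Gr x.t) (d1 d2 : ℤ) (ha : x.al d1 d2 ≤ 0)
    (hb : 0 ≤ x.be d1 d2) : x.L.S d1 d2 ≤ x.R.I d1 d2 := by
  have h1 := MN_gap hGE h d1 d2 ha hb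
  have ha' : (x.al d1 d2 : ℝ) ≤ 0 := by exact_mod_cast ha
  have hb' : (0 : ℝ) ≤ x.be d1 d2 := by exact_mod_cast hb
  have h2 : 0 ≤ ((x.be d1 d2 : ℝ) - x.al d1 d2) * Real.exp (-x.lz) :=
    mul_nonneg (by linarith) (Real.exp_pos _).le
  linarith

theorem MN (hGE : GE_stmt) : MN_stmt := by
  intro c c' k t0 _ M n
  induction n with
  | zero =>
    intro x hx y hy d1 d2 ha hb
    simp only [lvs, List.mem_singleton] at hy
    subst hy
    obtain ⟨h1, h2⟩ := MN_node hGE hx.gr d1 d2 ha hb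
    exact ⟨le_refl _, h1, h2, le_refl _, ha, hb⟩
  | succ n ih =>
    intro x hx y hy d1 d2 ha hb
    simp only [lvs] at hy
    split_ifs at hy with hM
    · rw [List.mem_singleton] at hy
      subst hy
      obtain ⟨h1, h2⟩ := MN_node hGE hx.gr d1 d2 ha hb
      exact ⟨le_refl _, h1, h2, le_refl _, ha, hb⟩
    · have hgap := MN_gap' hGE hx.gr d1 d2 ha hb
      have hLa : x.L.al d1 d2 ≤ 0 := by rw [al_L]; linarith
      have hLb : 0 ≤ x.L.be d1 d2 := by rw [be_L]; exact hb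
      have hRa : x.R.al d1 d2 ≤ 0 := by rw [al_R]; exact ha
      have hRb : 0 ≤ x.R.be d1 d2 := by rw [be_R]; linarith
      have hL := MN_node hGE hx.L.gr d1 d2 hLa hLb
      have hR := MN_node hGE hx.R.gr d1 d2 hRa hRb
      have hIL := MN_I_L hGE hx.gr d1 d2
      have hSR := MN_S_R hGE hx.gr d1 d2
      rw [List.mem_append] at hy
      rcases hy with hy | hy
      · obtain ⟨a1, a2, a3, a4, a5, a6⟩ := ih x.L hx.L y hy d1 d2 hLa hLb
        exact ⟨by linarith, a2, a3, by linarith, a5, a6⟩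
      · obtain ⟨a1, a2, a3, a4, a5, a6⟩ := ih x.R hx.R y hy d1 d2 hRa hRb
        exact ⟨by linarith, a2, a3, by linarith, a5, a6⟩

end AM
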